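import Mathlib
import Pool.Agent.X127.MG.Uni

/-!
# Matrix semigroups as Markovian semigroups on `ℓ¹`
-/

set_option autoImplicit false
open Set Filter Topology BoundedContinuousFunction

namespace Pool.Agent.X127.MG
open H520R3.MG

/-- coordinate functional -/
noncomputable def co (j : ℕ) : E →L[ℝ] ℝ := pairL (ind {j})

theorem co_apply (j : ℕ) (x : E) : co j x = x j := by
  rw [co, pairL_apply, tsum_eq_single j]
  · rw [ind_of_mem (mem_singleton j), mul_one]
  · intro k hk
    rw [ind_of_notMem (by simpa using hk), mul_zero]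

theorem ext_co {x y : E} (h : ∀ n, x n = y n) : x = y := by
  apply Subtype.ext
  funext n
  exact h n

variable {d : ℕ}

/-- first `d` coordinates -/
def rr (d : ℕ) (x : E) : Fin d → ℝ := fun j => x j

/-- a matrix acting on the first `d` coordinates -/
noncomputable def R (A : Matrix (Fin d) (Fin d) ℝ) : E →L[ℝ] E :=
  ∑ i : Fin d, ∑ j : Fin d, A i j • (co j).smulRight (e i)

theorem R_apply (A : Matrix (Fin d) (Fin d) ℝ) (x : E) :
    R A x = ∑ i : Fin d, (A.mulVec (rr d x) i) • e i := by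
  rw [R]
  simp only [_root_.sum_apply, _root_.smul_apply,
    ContinuousLinearMap.smulRight_apply, co_apply]
  refine Finset.sum_congr rfl fun i _ => ?_
  rw [Matrix.mulVec, dotProduct, Finset.sum_smul]
  refine Finset.sum_congr rfl fun j _ => ?_
  rw [smul_smul]
  rfl

theorem R_coord (A : Matrix (Fin d) (Fin d) ℝ) (x : E) (n : ℕ) :
    (R A x) n = if h : n < d then A.mulVec (rr d x) ⟨n, h⟩ else 0 := by
  rw [← co_apply, R_apply, map_sum]
  simp only [map_smul, smul_eq_mul, co_apply]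
  split_ifs with h
  · rw [Finset.sum_eq_single ⟨n, h⟩]
    · have : e (((⟨n, h⟩ : Fin d) : ℕ)) n = 1 := e_self n
      rw [this, mul_one]
    · intro i _ hi
      rw [e_ne, mul_zero]
      intro hc
      apply hi
      exact Fin.ext hc.symm
    · intro hc; exact absurd (Finset.mem_univ _) hc
  · refine Finset.sum_eq_zero fun i _ => ?_
    rw [e_ne, mul_zero]
    intro hc
    exact h (hc ▸ i.2)

/-- identity plus a finite block -/
noncomputable def S (A : Matrix (Fin d) (Fin d) ℝ) : E →L[ℝ] E :=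
  ContinuousLinearMap.id ℝ E + R (A - 1)

theorem S_apply (A : Matrix (Fin d) (Fin d) ℝ) (x : E) : S A x = x + R (A - 1) x := rfl

theorem S_coord (A : Matrix (Fin d) (Fin d) ℝ) (x : E) (n : ℕ) :
    (S A x) n = if h : n < d then A.mulVec (rr d x) ⟨n, h⟩ else x n := by
  rw [S_apply, lp.coeFn_add, Pi.add_apply, R_coord]
  split_ifs with h
  · rw [Matrix.sub_mulVec, Matrix.one_mulVec, Pi.sub_apply]
    have : rr d x ⟨n, h⟩ = x n := rfl
    rw [this]; ring
  · rw [add_zero]

theorem rr_S (A : Matrix (Fin d) (Fin d) ℝ) (x : E) : rr d (S A x) = A.mulVec (rr d x) := by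
  funext i
  have : rr d (S A x) i = (S A x) i := rfl
  rw [this, S_coord, dif_pos i.2]

theorem S_mul (A B : Matrix (Fin d) (Fin d) ℝ) : S (A * B) = (S A).comp (S B) := by
  ext x : 1
  apply ext_co
  intro n
  rw [ContinuousLinearMap.comp_apply, S_coord, S_coord, rr_S]
  split_ifs with h
  · rw [Matrix.mulVec_mulVec]
  · rw [S_coord, dif_neg h]

theorem S_one : S (1 : Matrix (Fin d) (Fin d) ℝ) = ContinuousLinearMap.id ℝ E := by
  ext x : 1
  apply ext_co
  intro n
  rw [S_coord]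
  split_ifs with h
  · rw [Matrix.one_mulVec]; rfl
  · rfl

theorem rr_e_lt {j : ℕ} (h : j < d) : rr d (e j) = Pi.single ⟨j, h⟩ 1 := by
  funext i
  by_cases hi : i = ⟨j, h⟩
  · subst hi
    rw [Pi.single_eq_same]
    exact e_self j
  · rw [Pi.single_eq_of_ne hi]
    apply e_ne
    intro hc
    exact hi (Fin.ext hc)

theorem rr_e_ge {j : ℕ} (h : ¬ j < d) : rr d (e j) = 0 := by
  funext i
  apply e_ne
  intro hc
  exact h (hc ▸ i.2)

theorem R_e (A : Matrix (Fin d) (Fin d) ℝ) (j : Fin d) :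
    R A (e j) = ∑ i : Fin d, A i j • e i := by
  rw [R_apply, rr_e_lt j.2]
  refine Finset.sum_congr rfl fun i _ => ?_
  rw [Matrix.mulVec_single_one]
  rfl

theorem R_e_coord (A : Matrix (Fin d) (Fin d) ℝ) (i j : Fin d) : (R A (e j)) i = A i j := by
  rw [R_coord, dif_pos i.2, rr_e_lt j.2, Matrix.mulVec_single_one]
  rfl

/-- the norm bound for a block with bounded columns -/
theorem S_bound {A : Matrix (Fin d) (Fin d) ℝ} {M : ℝ} (hM : 1 ≤ M)
    (hA : ∀ j, ∑ i, |A i j| ≤ M) (x : E) : ‖S A x‖ ≤ M * ‖x‖ := by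
  refine opNorm_le (fun j => ?_) x
  by_cases h : j < d
  · have h1 : S A (e j) = ∑ i : Fin d, A i ⟨j, h⟩ • e i := by
      rw [S_apply]
      have h2 := R_e (A - 1) ⟨j, h⟩
      have h3 : (e ((⟨j, h⟩ : Fin d) : ℕ)) = e j := rfl
      rw [h3] at h2
      rw [h2]
      simp only [Matrix.sub_apply, sub_smul, Finset.sum_sub_distrib]
      have h4 : ∑ i : Fin d, (1 : Matrix (Fin d) (Fin d) ℝ) i ⟨j, h⟩ • e i = e j := by
        rw [Finset.sum_eq_single ⟨j, h⟩]
        · rw [Matrix.one_apply_eq, one_smul]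
        · intro i _ hi
          rw [Matrix.one_apply_ne hi, zero_smul]
        · intro hc; exact absurd (Finset.mem_univ _) hc
      rw [h4]
      abel
    rw [h1]
    refine (norm_sum_le _ _).trans ?_
    refine le_trans (le_of_eq ?_) (hA ⟨j, h⟩)
    refine Finset.sum_congr rfl fun i _ => ?_
    rw [norm_smul, norm_e, mul_one, Real.norm_eq_abs]
  · have h1 : S A (e j) = e j := by
      apply ext_co
      intro n
      rw [S_coord]
      split_ifs with hn
      · rw [rr_e_ge h, Matrix.mulVec_zero, Pi.zero_apply, e_ne]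
        intro hc
        exact h (hc ▸ hn)
      · rfl
    rw [h1, norm_e]
    exact hM

/-- stochastic blocks give Markov operators -/
theorem S_mk {A : Matrix (Fin d) (Fin d) ℝ} (h0 : ∀ i j, 0 ≤ A i j) (h1 : ∀ j, ∑ i, A i j = 1) :
    Mk (S A) := by
  have hpos : ∀ x : E, (∀ n, 0 ≤ x n) → ∀ n, 0 ≤ (S A x) n := by
    intro x hx n
    rw [S_coord]
    split_ifs with h
    · rw [Matrix.mulVec, dotProduct]
      exact Finset.sum_nonneg fun j _ => mul_nonneg (h0 _ _) (hx _)
    · exact hx n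
  refine ⟨hpos, fun x hx => ?_⟩
  have key : ∀ y : E, (∀ n, 0 ≤ y n) → ‖y‖ = pairL 1 y := by
    intro y hy
    rw [norm_eq, pairL_apply]
    refine tsum_congr fun n => ?_
    rw [abs_of_nonneg (hy n), BoundedContinuousFunction.coe_one, Pi.one_apply, mul_one]
  rw [key _ (hpos x hx), key _ hx, S_apply, map_add, R_apply, map_sum]
  have h2 : ∀ i : Fin d, pairL 1 (((A - 1).mulVec (rr d x) i) • e (i : ℕ)) =
      (A - 1).mulVec (rr d x) i := by
    intro i
    rw [map_smul, pairL_e, smul_eq_mul]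
    simp
  rw [Finset.sum_congr rfl fun i _ => h2 i]
  have h3 : ∑ i : Fin d, (A - 1).mulVec (rr d x) i = 0 := by
    simp only [Matrix.mulVec, dotProduct]
    rw [Finset.sum_comm]
    refine Finset.sum_eq_zero fun j _ => ?_
    rw [← Finset.sum_mul]
    simp only [Matrix.sub_apply, Finset.sum_sub_distrib]
    rw [h1 j]
    have : ∑ i : Fin d, (1 : Matrix (Fin d) (Fin d) ℝ) i j = 1 := by
      rw [Finset.sum_eq_single j]
      · exact Matrix.one_apply_eq j
      · intro i _ hi; exact Matrix.one_apply_ne hi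
      · intro hc; exact absurd (Finset.mem_univ _) hc
    rw [this, sub_self, zero_mul]
  rw [h3, add_zero]

theorem cont_exp (Q : Matrix (Fin d) (Fin d) ℝ) :
    Continuous fun t : ℝ => NormedSpace.exp (t • Q) := by
  let : NormedRing (Matrix (Fin d) (Fin d) ℝ) := Matrix.linftyOpNormedRing
  let : NormedAlgebra ℝ (Matrix (Fin d) (Fin d) ℝ) := Matrix.linftyOpNormedAlgebra
  let : NormedAlgebra ℚ (Matrix (Fin d) (Fin d) ℝ) := NormedAlgebra.restrictScalars ℚ ℝ _
  exact NormedSpace.exp_continuous.comp (continuous_id.smul continuous_const)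

theorem exp_tendsto (Q : Matrix (Fin d) (Fin d) ℝ) (i j : Fin d) :
    Tendsto (fun t : ℝ => t⁻¹ * ((NormedSpace.exp (t • Q) - 1) i j)) (𝓝[≠] 0) (𝓝 (Q i j)) := by
  let : NormedRing (Matrix (Fin d) (Fin d) ℝ) := Matrix.linftyOpNormedRing
  let : NormedAlgebra ℝ (Matrix (Fin d) (Fin d) ℝ) := Matrix.linftyOpNormedAlgebra
  let : NormedAlgebra ℚ (Matrix (Fin d) (Fin d) ℝ) := NormedAlgebra.restrictScalars ℚ ℝ _
  have h1 : HasDerivAt (fun u : ℝ => NormedSpace.exp (u • Q)) (NormedSpace.exp ((0 : ℝ) • Q) * Q) 0 :=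
    hasDerivAt_exp_smul_const Q 0
  have h2 := h1.tendsto_slope_zero
  simp only [zero_add, zero_smul, NormedSpace.exp_zero, one_mul] at h2
  have h3 : Continuous fun X : Matrix (Fin d) (Fin d) ℝ => X i j :=
    (continuous_apply_apply i j)
  have h4 := (h3.tendsto Q).comp h2
  exact h4

theorem exp_add' (Q : Matrix (Fin d) (Fin d) ℝ) (s t : ℝ) :
    NormedSpace.exp ((s + t) • Q) = NormedSpace.exp (s • Q) * NormedSpace.exp (t • Q) := by
  rw [add_smul]
  exact Matrix.exp_add_of_commute _ _ ((Commute.refl Q).smul_left s |>.smul_right t)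

/-- the semigroup on `ℓ¹` -/
noncomputable def TQ (Q : Matrix (Fin d) (Fin d) ℝ) (t : NNReal) : E →L[ℝ] E :=
  S (NormedSpace.exp ((t : ℝ) • Q))

theorem TQ_msg {Q : Matrix (Fin d) (Fin d) ℝ}
    (hQ : ∀ t : ℝ, 0 ≤ t →
          (∀ i j : Fin d, 0 ≤ NormedSpace.exp (t • Q) i j) ∧
          (∀ j : Fin d, ∑ i : Fin d, NormedSpace.exp (t • Q) i j = 1)) : MSG (TQ Q) := by
  refine ⟨?_, ?_, ?_, ?_, ?_⟩
  · rw [TQ, NNReal.coe_zero, zero_smul, NormedSpace.exp_zero, S_one]
  · intro s t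
    rw [TQ, TQ, TQ, ← S_mul, ← exp_add', NNReal.coe_add]
  · intro x
    have h1 : (fun t : NNReal => TQ Q t x) = fun t : NNReal =>
        x + ∑ i : Fin d, ((NormedSpace.exp ((t : ℝ) • Q) - 1).mulVec (rr d x) i) • e i := by
      funext t
      rw [TQ, S_apply, R_apply]
    rw [h1]
    have h2 : Continuous fun t : NNReal => NormedSpace.exp ((t : ℝ) • Q) :=
      (cont_exp Q).comp NNReal.continuous_coe
    refine continuous_const.add (continuous_finsetSum _ fun i _ => ?_)
    have h3 : Continuous fun t : NNReal =>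
        (NormedSpace.exp ((t : ℝ) • Q) - 1).mulVec (rr d x) :=
      (h2.sub continuous_const).matrix_mulVec continuous_const
    exact (continuous_pi_iff.1 h3 i).smul continuous_const
  · intro t
    exact S_mk (hQ t t.coe_nonneg).1 (hQ t t.coe_nonneg).2
  · have h1 : ∀ x, S (NormedSpace.exp (-Q)) (TQ Q 1 x) = x := by
      intro x
      have : (S (NormedSpace.exp (-Q))).comp (TQ Q 1) = ContinuousLinearMap.id ℝ E := by
        rw [TQ, ← S_mul, ← S_one (d := d)]
        congr 1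
        have := exp_add' Q (-1) 1
        rw [neg_add_cancel, zero_smul, NormedSpace.exp_zero, neg_smul, one_smul] at this
        rw [NNReal.coe_one, one_smul]
        exact this.symm
      exact congrArg (fun L : E →L[ℝ] E => L x) this
    have h2 : ∀ x, TQ Q 1 (S (NormedSpace.exp (-Q)) x) = x := by
      intro x
      have : (TQ Q 1).comp (S (NormedSpace.exp (-Q))) = ContinuousLinearMap.id ℝ E := by
        rw [TQ, ← S_mul, ← S_one (d := d)]
        congr 1
        have := exp_add' Q 1 (-1)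
        rw [add_neg_cancel, zero_smul, NormedSpace.exp_zero, neg_smul, one_smul] at this
        rw [NNReal.coe_one, one_smul]
        exact this.symm
      exact congrArg (fun L : E →L[ℝ] E => L x) this
    exact Function.bijective_iff_has_inverse.2 ⟨_, h1, h2⟩

theorem TQ_inv (Q : Matrix (Fin d) (Fin d) ℝ) (x : E) :
    S (NormedSpace.exp (-Q)) (TQ Q 1 x) = x := by
  have : (S (NormedSpace.exp (-Q))).comp (TQ Q 1) = ContinuousLinearMap.id ℝ E := by
    rw [TQ, ← S_mul, ← S_one (d := d)]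
    congr 1
    have := exp_add' Q (-1) 1
    rw [neg_add_cancel, zero_smul, NormedSpace.exp_zero, neg_smul, one_smul] at this
    rw [NNReal.coe_one, one_smul]
    exact this.symm
  exact congrArg (fun L : E →L[ℝ] E => L x) this

theorem TQ_lower {Q : Matrix (Fin d) (Fin d) ℝ} {M : ℝ} (hM : 1 ≤ M)
    (h : ∀ j, ∑ i, |NormedSpace.exp (-Q) i j| ≤ M) (x : E) : ‖x‖ ≤ M * ‖TQ Q 1 x‖ := by
  have := S_bound hM h (TQ Q 1 x)
  rwa [TQ_inv] at this

/-- the rescaled defects stay bounded -/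
theorem Bd_scaled {T : NNReal → (E →L[ℝ] E)} (hT : MSG T) {l₀ : ℕ}
    (h : ∀ j, ∀ m, l₀ < m → (3 : ℝ) / 4 < (T (hl m) (e j)) j) :
    ∀ k, 2 ^ k * ‖Bd T (l₀ + 1 + k)‖ ≤ Real.exp (3 / 2 * (1 - (2 / 3) ^ k)) := by
  intro k
  induction k with
  | zero =>
    have := Bd_rec hT h 0
    simp only [pow_zero, mul_one, one_mul, sub_self, mul_zero, Real.exp_zero] at this ⊢
    linarith
  | succ k ih =>
    have h1 := Bd_double hT (l₀ + 1 + k)
    have h2 := Bd_rec hT h (k + 1)
    rw [show l₀ + 1 + (k + 1) = l₀ + 1 + k + 1 by ring] at h2 ⊢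
    set b := ‖Bd T (l₀ + 1 + k + 1)‖ with hb
    set a := ‖Bd T (l₀ + 1 + k)‖ with ha
    have hb0 : 0 ≤ b := norm_nonneg _
    have ha0 : 0 ≤ a := norm_nonneg _
    have h3 : 2 * b ≤ a + b * b := by
      have e1 : 2 * b = ‖(2 : ℝ) • Bd T (l₀ + 1 + k + 1)‖ := by
        rw [norm_smul]; norm_num [hb]
      rw [e1, h1]
      refine (norm_add_le _ _).trans ?_
      gcongr
      exact ContinuousLinearMap.opNorm_comp_le _ _
    have hp : (2 / 3 : ℝ) ^ (k + 1) ≤ 1 := pow_le_one₀ (by norm_num) (by norm_num)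
    have hp0 : (0 : ℝ) < (2 / 3) ^ k := by positivity
    have hb1 : b ≤ 1 / 2 := by linarith
    have h4 : 2 * b ≤ a * (1 + b) := by
      have : b * (2 - b) ≤ a := by nlinarith
      have h5 : b * (2 - b) * (1 + b) ≤ a * (1 + b) :=
        mul_le_mul_of_nonneg_right this (by linarith)
      nlinarith [mul_nonneg hb0 hb0, mul_nonneg (mul_nonneg hb0 hb0) (by linarith : 0 ≤ 1 - b)]
    have h5 : 1 + b ≤ Real.exp (1 / 2 * (2 / 3) ^ (k + 1)) := by
      have := Real.add_one_le_exp (1 / 2 * (2 / 3 : ℝ) ^ (k + 1))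
      linarith
    calc 2 ^ (k + 1) * b = 2 ^ k * (2 * b) := by ring
      _ ≤ 2 ^ k * (a * (1 + b)) := mul_le_mul_of_nonneg_left h4 (by positivity)
      _ = (2 ^ k * a) * (1 + b) := by ring
      _ ≤ Real.exp (3 / 2 * (1 - (2 / 3) ^ k)) * Real.exp (1 / 2 * (2 / 3) ^ (k + 1)) :=
          mul_le_mul ih h5 (by linarith) (Real.exp_pos _).le
      _ = Real.exp (3 / 2 * (1 - (2 / 3) ^ k) + 1 / 2 * (2 / 3) ^ (k + 1)) := by
          rw [Real.exp_add]
      _ ≤ _ := by
          apply Real.exp_le_exp.2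
          rw [pow_succ]
          nlinarith

theorem main :
    ∀ M : ℝ, 1 ≤ M → ∃ C : ℝ, 0 ≤ C ∧
      ∀ d : ℕ, ∀ Q : Matrix (Fin d) (Fin d) ℝ,
        (∀ j : Fin d, ∑ i : Fin d, |NormedSpace.exp (-Q) i j| ≤ M) →
        (∀ t : ℝ, 0 ≤ t →
          (∀ i j : Fin d, 0 ≤ NormedSpace.exp (t • Q) i j) ∧
          (∀ j : Fin d, ∑ i : Fin d, NormedSpace.exp (t • Q) i j = 1)) →
        ∀ j : Fin d, ∑ i : Fin d, |Q i j| ≤ C := by
  intro M hM
  obtain ⟨l₀, hl₀⟩ := levels_uniform (M := M * M) (by nlinarith)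
  refine ⟨2 ^ (l₀ + 1) * Real.exp (3 / 2), by positivity, ?_⟩
  intro d Q hinv hQ j
  have hT := TQ_msg hQ
  have h1 := hl₀ _ hT (lower_uniform hM hT (TQ_lower hM hinv))
  have h2 := Bd_scaled hT h1
  -- the column sums at time 2^{-m}
  have h3 : ∀ k : ℕ, ∑ i : Fin d, |((hl (l₀ + 1 + k) : NNReal) : ℝ)⁻¹ *
      ((NormedSpace.exp (((hl (l₀ + 1 + k) : NNReal) : ℝ) • Q) - 1) i j)| ≤
      2 ^ (l₀ + 1) * Real.exp (3 / 2) := by
    intro k
    set m := l₀ + 1 + k with hm
    set A := NormedSpace.exp (((hl m : NNReal) : ℝ) • Q) - 1 with hA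
    have e1 : (Bd (TQ Q) m) (e j) = - R A (e j) := by
      have : (Bd (TQ Q) m) (e j) = e j - TQ Q (hl m) (e j) := rfl
      rw [this, TQ, S_apply]
      abel
    have e2 : ∑ i : Fin d, |A i j| ≤ ‖R A (e j)‖ := by
      rw [norm_eq]
      have e3 : ∑ i : Fin d, |A i j| = ∑ n ∈ Finset.range d, |(R A (e j)) n| := by
        rw [← Fin.sum_univ_eq_sum_range (fun n => |(R A (e j)) n|) d]
        refine Finset.sum_congr rfl fun i _ => ?_
        rw [R_e_coord]
      rw [e3]
      exact (summ _).sum_le_tsum _ (fun n _ => abs_nonneg _)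
    have e4 : ‖R A (e j)‖ ≤ ‖Bd (TQ Q) m‖ := by
      have := (Bd (TQ Q) m).le_opNorm (e j)
      rw [e1, norm_neg, norm_e, mul_one] at this
      exact this
    have e5 : ((hl m : NNReal) : ℝ)⁻¹ = 2 ^ m := by
      rw [hl_real, one_div, inv_pow, inv_inv]
    have e6 : ∑ i : Fin d, |((hl m : NNReal) : ℝ)⁻¹ * A i j| = 2 ^ m * ∑ i : Fin d, |A i j| := by
      rw [Finset.mul_sum]
      refine Finset.sum_congr rfl fun i _ => ?_
      rw [abs_mul, e5, abs_of_pos (by positivity : (0 : ℝ) < 2 ^ m)]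
    rw [e6]
    have e7 : (2 : ℝ) ^ m = 2 ^ (l₀ + 1) * 2 ^ k := by rw [hm, pow_add]
    have e8 : Real.exp (3 / 2 * (1 - (2 / 3) ^ k)) ≤ Real.exp (3 / 2) := by
      apply Real.exp_le_exp.2
      have : (0 : ℝ) < (2 / 3) ^ k := by positivity
      linarith
    calc 2 ^ m * ∑ i : Fin d, |A i j| ≤ 2 ^ m * ‖Bd (TQ Q) m‖ :=
          mul_le_mul_of_nonneg_left (e2.trans e4) (by positivity)
      _ = 2 ^ (l₀ + 1) * (2 ^ k * ‖Bd (TQ Q) m‖) := by rw [e7]; ring
      _ ≤ 2 ^ (l₀ + 1) * Real.exp (3 / 2) :=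
          mul_le_mul_of_nonneg_left ((h2 k).trans e8) (by positivity)
  -- pass to the limit
  have h4 : Tendsto (fun k : ℕ => ((hl (l₀ + 1 + k) : NNReal) : ℝ)) atTop (𝓝[≠] 0) := by
    rw [tendsto_nhdsWithin_iff]
    constructor
    · have : Tendsto (fun m : ℕ => ((1 : ℝ) / 2) ^ m) atTop (𝓝 0) :=
        tendsto_pow_atTop_nhds_zero_of_lt_one (by norm_num) (by norm_num)
      have h5 := this.comp (tendsto_add_atTop_nat (l₀ + 1))
      refine h5.congr fun k => ?_
      rw [Function.comp_apply, hl_real, add_comm]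
    · refine Eventually.of_forall fun k => ?_
      have := hl_pos (l₀ + 1 + k)
      simp only [mem_compl_iff, mem_singleton_iff]
      have h6 : (0 : ℝ) < ((hl (l₀ + 1 + k) : NNReal) : ℝ) := by exact_mod_cast this
      exact h6.ne'
  have h5 : Tendsto (fun k : ℕ => ∑ i : Fin d, |((hl (l₀ + 1 + k) : NNReal) : ℝ)⁻¹ *
      ((NormedSpace.exp (((hl (l₀ + 1 + k) : NNReal) : ℝ) • Q) - 1) i j)|) atTop
      (𝓝 (∑ i : Fin d, |Q i j|)) := by
    refine tendsto_finsetSum _ fun i _ => ?_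
    exact ((exp_tendsto Q i j).comp h4).abs
  exact le_of_tendsto h5 (Eventually.of_forall h3)

end Pool.Agent.X127.MG
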